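import Mathlib
import Pool.Agent.Helper21.SR.St

set_option autoImplicit false

/-!
# Module CUBE
-/

namespace Pool.Agent.Helper79.SR

open Finset
open scoped Pointwise
open Pool.Agent.Helper21.SR

theorem kap_le_card_CUBE (V : Finset ℝ) (t c : ℝ) : kap V t c ≤ #V := by
  unfold kap
  exact Finset.card_filter_le _ _

theorem hCube (hRich : StRich) : StCube := by
  classical
  intro V L hL
  have hmaps : ∀ l ∈ L, Nat.log 2 (kap V l.1 l.2) ∈ Finset.range (Nat.log 2 #V + 1) := by
    intro l _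
    rw [Finset.mem_range]
    exact Nat.lt_succ_of_le (Nat.log_mono_right (kap_le_card_CUBE V l.1 l.2))
  rw [← Finset.sum_fiberwise_of_maps_to hmaps]
  have hj : ∀ j ∈ Finset.range (Nat.log 2 #V + 1),
      ∑ l ∈ L.filter (fun l => Nat.log 2 (kap V l.1 l.2) = j), kap V l.1 l.2 ^ 3 ≤
        4096 * #V ^ 4 := by
    intro j _
    rcases Nat.eq_zero_or_pos j with h0 | h0
    · have hemp : L.filter (fun l => Nat.log 2 (kap V l.1 l.2) = j) = ∅ := by
        rw [Finset.filter_eq_empty_iff]
        intro l hl hlog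
        have h2 := (hL l hl).2
        have h3 : 1 ≤ Nat.log 2 (kap V l.1 l.2) := by
          have := Nat.log_mono_right (b := 2) h2
          have h4 : Nat.log 2 2 = 1 := by decide
          omega
        omega
      rw [hemp]
      simp
    · set Lj := L.filter (fun l => Nat.log 2 (kap V l.1 l.2) = j) with hLj
      have hk2 : 2 ≤ 2 ^ j := by
        calc 2 = 2 ^ 1 := by norm_num
          _ ≤ 2 ^ j := Nat.pow_le_pow_right (by norm_num) h0
      have hr := hRich V Lj (2 ^ j) hk2 (by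
        intro l hl
        rw [hLj, Finset.mem_filter] at hl
        refine ⟨(hL l hl.1).1, ?_⟩
        have hne : kap V l.1 l.2 ≠ 0 := by
          have := (hL l hl.1).2
          omega
        rw [← hl.2]
        exact Nat.pow_log_le_self 2 hne)
      have hb : ∀ l ∈ Lj, kap V l.1 l.2 ^ 3 ≤ 8 * (2 ^ j) ^ 3 := by
        intro l hl
        rw [hLj, Finset.mem_filter] at hl
        have h5 : kap V l.1 l.2 < 2 ^ (j + 1) := by
          rw [← hl.2]
          exact Nat.lt_pow_succ_log_self (by norm_num) _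
        calc kap V l.1 l.2 ^ 3 ≤ (2 ^ (j + 1)) ^ 3 := Nat.pow_le_pow_left h5.le 3
          _ = 8 * (2 ^ j) ^ 3 := by ring
      calc ∑ l ∈ Lj, kap V l.1 l.2 ^ 3 ≤ ∑ _l ∈ Lj, 8 * (2 ^ j) ^ 3 := Finset.sum_le_sum hb
        _ = 8 * (#Lj * (2 ^ j) ^ 3) := by rw [Finset.sum_const, smul_eq_mul]; ring
        _ ≤ 8 * (512 * #V ^ 4) := Nat.mul_le_mul_left _ hr
        _ = 4096 * #V ^ 4 := by ring
  calc _ ≤ ∑ _j ∈ Finset.range (Nat.log 2 #V + 1), 4096 * #V ^ 4 := Finset.sum_le_sum hj
    _ = 4096 * #V ^ 4 * (Nat.log 2 #V + 1) := by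
        rw [Finset.sum_const, Finset.card_range, smul_eq_mul]; ring

end Pool.Agent.Helper79.SR
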